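import Mathlib

/-!
# The Ramanujan bound for weight-2 Hecke characters: data and known facts
-/

namespace Pool.Agent.N522.RP

/-- Hecke characters and primes. -/
structure Theory where
  /-- number fields -/
  Fld : Type
  /-- degree over `ℚ` -/
  deg : Fld → ℕ
  /-- pairs of a nontrivial character `θ` of `𝕋_1(𝔫)` (for some `𝔫`) and a prime `℘ ∤ 𝔫` -/
  Pt : Fld → Type
  /-- the norm of `℘` -/
  N : ∀ {K : Fld}, Pt K → ℝ
  /-- `|θ(T_℘)|` -/
  T : ∀ {K : Fld}, Pt K → ℝ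
  /-- `max(|α|, |β|) / (N℘)^{1/2}` where `x² - θ(T_℘) x + θ(S_℘) N℘ = (x - α)(x - β)` -/
  r : ∀ {K : Fld}, Pt K → ℝ

variable {Y : Theory}

/-- Q1 -/
def Q1 (Y : Theory) : Prop := ∀ (K : Y.Fld) (x : Y.Pt K), Y.T x ≤ 2 * Real.sqrt (Y.N x)

/-- the bound with a constant that depends on the degree of the field only -/
def BoundedBy (Y : Theory) (C : ℕ → ℝ) : Prop :=
  ∀ (K : Y.Fld) (x : Y.Pt K), Y.T x ≤ C (Y.deg K) * Real.sqrt (Y.N x)

/-- growth slower than any exponential -/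
def SubExp (C : ℕ → ℝ) : Prop := ∀ ε : ℝ, 0 < ε → ∃ n₀ : ℕ, ∀ n, n₀ ≤ n → C n ≤ (1 + ε) ^ n

/-- Known facts. -/
structure Facts (Y : Theory) : Prop where
  /-- fields have positive degree -/
  deg_pos : ∀ K : Y.Fld, 0 < Y.deg K
  /-- norms are positive -/
  norm_pos : ∀ (K : Y.Fld) (x : Y.Pt K), 0 < Y.N x
  /-- `|α β| = N℘` -/
  one_le : ∀ (K : Y.Fld) (x : Y.Pt K), 1 ≤ Y.r x
  /-- the tempered case -/
  tempered : ∀ (K : Y.Fld) (x : Y.Pt K), Y.r x = 1 → Y.T x ≤ 2 * Real.sqrt (Y.N x)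
  /-- in the non-tempered case `α/β` is positive because the local representation is unitary; a
  nontrivial character that does not come from a cuspidal representation is tempered -/
  nontempered : ∀ (K : Y.Fld) (x : Y.Pt K), 1 < Y.r x →
    Y.T x = (Y.r x + (Y.r x)⁻¹) * Real.sqrt (Y.N x)
  /-- Base change (Langlands) to a cyclic extension of odd prime degree `f` in which `℘` is inert; the
  base change stays cuspidal of weight 2, and `α`, `β` become `α^f`, `β^f`. -/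
  baseChange : ∀ (K : Y.Fld) (x : Y.Pt K), 1 < Y.r x → ∀ f : ℕ, f.Prime → f ≠ 2 →
    ∃ (K' : Y.Fld) (x' : Y.Pt K'), Y.deg K' = f * Y.deg K ∧ Y.r x' = Y.r x ^ f

theorem tempered_of_bound (F : Facts Y) (C : ℕ → ℝ) (hC : SubExp C) (h : BoundedBy Y C)
    (K : Y.Fld) (x : Y.Pt K) : Y.r x = 1 := by
  by_contra hne
  have hr : 1 < Y.r x := lt_of_le_of_ne (F.one_le K x) (Ne.symm hne)
  have hD := F.deg_pos K
  set s : ℝ := Y.r x ^ ((Y.deg K : ℝ)⁻¹) with hs
  have hs1 : 1 < s := Real.one_lt_rpow hr (by positivity)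
  have hsD : s ^ Y.deg K = Y.r x := by
    rw [hs]
    exact Real.rpow_inv_natCast_pow (by linarith) hD.ne'
  obtain ⟨n₀, hn₀⟩ := hC (s - 1) (by linarith)
  obtain ⟨f, hf1, hf2⟩ := Nat.exists_infinite_primes (max n₀ 3)
  have hf3 : n₀ ≤ f := le_trans (le_max_left _ _) hf1
  have hf4 : 3 ≤ f := le_trans (le_max_right _ _) hf1
  obtain ⟨K', x', h1, h2⟩ := F.baseChange K x hr f hf2 (by omega)
  have h3 : n₀ ≤ f * Y.deg K := le_trans hf3 (Nat.le_mul_of_pos_right f hD)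
  have h4 := hn₀ _ h3
  have e : (1 + (s - 1)) ^ (f * Y.deg K) = Y.r x ^ f := by
    rw [add_sub_cancel, mul_comm f, pow_mul, hsD]
  rw [e] at h4
  have h5 : 1 < Y.r x' := by
    rw [h2]
    exact one_lt_pow₀ hr (by omega)
  have h6 := h K' x'
  rw [F.nontempered K' x' h5, h1] at h6
  have h7 : 0 < Real.sqrt (Y.N x') := Real.sqrt_pos.2 (F.norm_pos K' x')
  have h8 := le_of_mul_le_mul_right h6 h7
  have h9 : 0 < (Y.r x')⁻¹ := inv_pos.2 (by linarith)
  rw [h2] at h8 h9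
  linarith

theorem q1_iff (F : Facts Y) : Q1 Y ↔ ∃ C : ℕ → ℝ, SubExp C ∧ BoundedBy Y C := by
  refine ⟨fun h => ⟨fun _ => 2, fun ε hε => ?_, h⟩, fun ⟨C, hC, h⟩ K x =>
    F.tempered K x (tempered_of_bound F C hC h K x)⟩
  obtain ⟨n₀, hn₀⟩ := pow_unbounded_of_one_lt 2 (show 1 < 1 + ε by linarith)
  exact ⟨n₀, fun n hn => le_trans hn₀.le (pow_le_pow_right₀ (by linarith) hn)⟩

end Pool.Agent.N522.RP
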